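import Pool.Agent.Lib_helper41.TK.Defs
import Pool.Agent.Lib_helper68.KSLF.BDB

/-! TK, block GE. -/

set_option autoImplicit false

namespace Pool.Agent.TK

open Pool.Agent.LEV Pool.Agent.LVB Pool.Agent.KSL
open Pool.Agent.LK (PQ)
open Pool.Agent.FG61 (mu phi cc ff AA Lam)
open Complex MeasureTheory Filter Topology UpperHalfPlane ModularGroup ProbabilityTheory
open scoped MatrixGroups Modular ENNReal ModularForm ComplexConjugate ContDiff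

/-- the boundary functional is small -/
theorem gbd_bound {T : ℝ} {ρ : ℝ → ℝ} (hρ : Ker T ρ) : ∃ C : ℝ, 0 < C ∧ ∀ (N : ℕ) [Fact N.Prime]
    (g : S2 N) (Q : ℕ), 1 ≤ Q → 100 * T * Q ≤ Real.sqrt N → ∀ w : ℕ → ℕ → ℂ,
      ‖∑ c ∈ Finset.Icc 1 Q, ∑ j ∈ RR c, w c j * bdf g ρ c ((j : ℝ) / c)‖ ≤
        C * Real.sqrt (gE Q w) * Real.sqrt (nr g) := by
  obtain ⟨C, hC, hker⟩ := bdf_kernel hρ
  have hT := hρ.T1
  set A : ℝ := (C * (3 * T + 3)) ^ 2 * Real.pi with hA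
  have hA0 : 0 < A := by
    have := Real.pi_pos
    positivity
  refine ⟨Real.sqrt (2 * A), by positivity, fun N _ g Q hQ1 hQ w => ?_⟩
  have hQ0 : (0 : ℝ) < Q := by exact_mod_cast hQ1
  have hN : 0 < Real.sqrt N := lt_of_lt_of_le (by positivity) hQ
  have hnr : 0 ≤ nr g := LSC_nr_nonneg g
  set P : Finset (Σ _ : ℕ, ℕ) := (Finset.Icc 1 Q).sigma RR with hP
  have hPm : ∀ p ∈ P, 1 ≤ p.1 ∧ p.1 ≤ Q ∧ p.2 ∈ RR p.1 := by
    intro p hp
    rw [hP, Finset.mem_sigma, Finset.mem_Icc] at hp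
    exact ⟨hp.1.1, hp.1.2, hp.2⟩
  set S : (Σ _ : ℕ, ℕ) → Set ℂ := fun p => bdbS T (rq N p.1) ((p.2 : ℝ) / p.1) with hS
  set b : (Σ _ : ℕ, ℕ) → ℂ := fun p => bdf g ρ p.1 ((p.2 : ℝ) / p.1) with hb
  set I : (Σ _ : ℕ, ℕ) → ℝ≥0∞ := fun p => ∫⁻ z in S p, ‖g (UpperHalfPlane.ofComplex z)‖ₑ ^ 2 with hI
  have h1 : ∀ p ∈ P, ‖b p‖ₑ ^ 2 ≤ I p * ENNReal.ofReal A := by
    intro p hp
    obtain ⟨hp1, hp2, hp3⟩ := hPm p hp
    obtain ⟨K, hK, hKb, hKs, hKe⟩ := hker N p.1 hp1 ((p.2 : ℝ) / p.1)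
    rw [hb]
    simp only
    rw [hKe g]
    exact bdb_one g hT (bdb_rq hT hQ1 hQ hp1).1 hC K hK hKb hKs
  have h2 : ∑ p ∈ P, I p ≤ ENNReal.ofReal (2 * nr g) := by
    have hd : (P : Set (Σ _ : ℕ, ℕ)).PairwiseDisjoint S := by
      intro p hp p' hp' hne
      obtain ⟨hp1, hp2, hp3⟩ := hPm p hp
      obtain ⟨hp1', hp2', hp3'⟩ := hPm p' hp'
      apply bdb_disj hT hQ1 hQ hp1 hp2 hp1' hp2' (Finset.mem_filter.mp hp3).2
        (Finset.mem_filter.mp hp3').2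
      rintro ⟨e1, e2⟩
      apply hne
      obtain ⟨a, b⟩ := p
      obtain ⟨a', b'⟩ := p'
      simp only at e1 e2
      subst e1
      subst e2
      rfl
    rw [hI]
    simp only
    rw [← lintegral_biUnion_finset hd (fun p _ => bdbS_meas _ _ _)]
    have hsub : (⋃ p ∈ P, S p) ⊆ LSB_st (-(3 / (100 * (Q : ℝ)))) (2 * Q * Real.sqrt N) := by
      intro z hz
      simp only [Set.mem_iUnion] at hz
      obtain ⟨p, hp, hz⟩ := hz
      obtain ⟨hp1, hp2, hp3⟩ := hPm p hp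
      exact bdb_sub hT hQ1 hQ hp1 hp2 hp3 hz
    refine (lintegral_mono_set hsub).trans ?_
    refine (LSB_strip g (by positivity) _).trans ?_
    apply ENNReal.ofReal_le_ofReal
    have hNN : Real.sqrt N * Real.sqrt N = N := Real.mul_self_sqrt (Nat.cast_nonneg _)
    have hN0 : (0 : ℝ) < N := by
      rw [← hNN]
      positivity
    have h3 : 4 * (2 * Q * Real.sqrt N) / N ≤ 1 := by
      rw [div_le_one hN0]
      have h4 : 8 * (Q : ℝ) ≤ Real.sqrt N := by nlinarith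
      nlinarith
    nlinarith
  have h3 : ∑ p ∈ P, ‖b p‖ ^ 2 ≤ 2 * A * nr g := by
    have h4 : ∑ p ∈ P, ‖b p‖ₑ ^ 2 ≤ ENNReal.ofReal (2 * A * nr g) := by
      calc ∑ p ∈ P, ‖b p‖ₑ ^ 2 ≤ ∑ p ∈ P, I p * ENNReal.ofReal A := Finset.sum_le_sum h1
        _ = (∑ p ∈ P, I p) * ENNReal.ofReal A := by rw [Finset.sum_mul]
        _ ≤ ENNReal.ofReal (2 * nr g) * ENNReal.ofReal A := mul_le_mul_left h2 _
        _ = _ := by
            rw [← ENNReal.ofReal_mul (by positivity)]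
            congr 1
            ring
    have h5 : ∑ p ∈ P, ‖b p‖ₑ ^ 2 = ENNReal.ofReal (∑ p ∈ P, ‖b p‖ ^ 2) := by
      rw [ENNReal.ofReal_sum_of_nonneg (fun p _ => by positivity)]
      refine Finset.sum_congr rfl fun p _ => ?_
      rw [← ofReal_norm, ENNReal.ofReal_pow (norm_nonneg _)]
    rw [h5, ENNReal.ofReal_le_ofReal_iff (by positivity)] at h4
    exact h4
  have h4 : ∑ p ∈ P, ‖w p.1 p.2‖ ^ 2 = gE Q w := by
    unfold gE
    rw [hP, Finset.sum_sigma]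
  have h5 : ‖∑ c ∈ Finset.Icc 1 Q, ∑ j ∈ RR c, w c j * bdf g ρ c ((j : ℝ) / c)‖ ≤
      ∑ p ∈ P, ‖w p.1 p.2‖ * ‖b p‖ := by
    have e : ∑ c ∈ Finset.Icc 1 Q, ∑ j ∈ RR c, w c j * bdf g ρ c ((j : ℝ) / c) =
        ∑ p ∈ P, w p.1 p.2 * b p := by
      rw [hP, Finset.sum_sigma]
    rw [e]
    refine (norm_sum_le _ _).trans (Finset.sum_le_sum fun p _ => ?_)
    rw [norm_mul]
  refine h5.trans ?_
  have h6 := Finset.sum_mul_sq_le_sq_mul_sq P (fun p => ‖w p.1 p.2‖) (fun p => ‖b p‖)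
  have hE : 0 ≤ gE Q w := by
    rw [← h4]
    exact Finset.sum_nonneg fun p _ => by positivity
  have h7 : (∑ p ∈ P, ‖w p.1 p.2‖ * ‖b p‖) ^ 2 ≤ gE Q w * (2 * A * nr g) := by
    refine h6.trans ?_
    rw [h4]
    exact mul_le_mul_of_nonneg_left h3 hE
  have h8 : Real.sqrt (2 * A) * Real.sqrt (gE Q w) * Real.sqrt (nr g) =
      Real.sqrt (gE Q w * (2 * A * nr g)) := by
    rw [← Real.sqrt_mul (by positivity), ← Real.sqrt_mul (by positivity)]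
    congr 1
    ring
  rw [h8]
  exact Real.le_sqrt_of_sq_le h7

end Pool.Agent.TK
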